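import Mathlib
import Pool.Agent.W648.UN.Stm

/-! # Landsberg unicorn: boundedness of `Ups` and `Tau` -/

set_option autoImplicit false

open MeasureTheory Set Filter Topology
open scoped ContDiff
open Pool.Agent.W648.UN

namespace Pool.Agent.W578.UN.Bd

theorem int_g : IntervalIntegrable (fun x : ℝ => (1 - x) ^ (-(1 / 2) : ℝ)) volume 0 1 ∧
    ∫ x in (0 : ℝ)..1, (1 - x) ^ (-(1 / 2) : ℝ) = 2 := by
  have h1 : IntervalIntegrable (fun x : ℝ => x ^ (-(1 / 2) : ℝ)) volume 0 1 :=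
    intervalIntegral.intervalIntegrable_rpow' (by norm_num)
  constructor
  · have h2 := h1.comp_sub_left 1
    simp only [sub_zero, sub_self] at h2
    exact h2.symm
  · have h3 := intervalIntegral.integral_comp_sub_left (a := 0) (b := 1)
      (fun x : ℝ => x ^ (-(1 / 2) : ℝ)) 1
    simp only [sub_zero, sub_self] at h3
    rw [h3, integral_rpow (Or.inl (by norm_num))]
    norm_num

theorem th (hD : S_D) (_hU : S_UN) : S_BD := by
  have key : ∀ (A : Type) [NormedCommRing A] [NormedAlgebra ℂ A] [CompleteSpace A]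
      [NormOneClass A] (H : ℝ → A) (b : ℂ) (p q E : ℝ → A), b ∈ Om → Sol H b p q E →
      ‖upsOf b q E‖ ≤ 8 ∧ ‖tauOf b q‖ ≤ 8 := by
    intro A _ _ _ _ H b p q E hb hs
    have hq : ∀ x ∈ Ico (0 : ℝ) 1, ‖q x‖ ≤ 4 / 3 := by
      intro x hx
      have h1 : q x = 1 - (p x - 1) * q x := by
        have := hs.pq x hx
        rw [sub_mul, this, one_mul]
        ring
      have h2 : ‖q x‖ ≤ 1 + 1 / 4 * ‖q x‖ := by
        calc ‖q x‖ = ‖1 - (p x - 1) * q x‖ := by rw [← h1]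
          _ ≤ ‖(1 : A)‖ + ‖(p x - 1) * q x‖ := norm_sub_le _ _
          _ ≤ 1 + ‖p x - 1‖ * ‖q x‖ := by rw [norm_one]; gcongr; exact norm_mul_le _ _
          _ ≤ 1 + 1 / 4 * ‖q x‖ := by have := hs.bp x hx; gcongr
      linarith
    have hE : ∀ x ∈ Ico (0 : ℝ) 1, ‖E x‖ ≤ 5 / 4 := by
      intro x hx
      have h1 : E x = 1 + (E x - 1) := by ring
      calc ‖E x‖ = ‖1 + (E x - 1)‖ := by rw [← h1]
        _ ≤ ‖(1 : A)‖ + ‖E x - 1‖ := norm_add_le _ _
        _ ≤ 1 + 1 / 4 := by rw [norm_one]; have := hs.bE x hx; gcongr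
        _ = 5 / 4 := by norm_num
    have hDx : ∀ x ∈ Ico (0 : ℝ) 1, ‖(D b x)⁻¹‖ ≤ (1 - x) ^ (-(1 / 2) : ℝ) := by
      intro x hx
      have h1 := (hD.1 b hb x hx).2.2.1
      have h0 : 0 < 1 - x := by linarith [hx.2]
      have h2 : Real.sqrt (1 - x) ≤ ‖D b x‖ := by
        rw [Real.sqrt_le_left (norm_nonneg _)]
        exact h1
      have h3 : 0 < Real.sqrt (1 - x) := Real.sqrt_pos.2 h0
      rw [norm_inv, Real.rpow_neg h0.le, ← Real.sqrt_eq_rpow]
      exact inv_anti₀ h3 h2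
    obtain ⟨hi, hv⟩ := int_g
    have h01 : (0 : ℝ) ∈ Ico (0 : ℝ) 1 := by norm_num
    constructor
    · have hA : ‖(D b 0)⁻¹ • (E 0 * q 0)‖ ≤ 5 / 3 := by
        have h1 := hDx 0 h01
        simp only [sub_zero, Real.one_rpow] at h1
        calc ‖(D b 0)⁻¹ • (E 0 * q 0)‖ ≤ ‖(D b 0)⁻¹‖ * ‖E 0 * q 0‖ := norm_smul_le _ _
          _ ≤ 1 * (‖E 0‖ * ‖q 0‖) := by gcongr; exact norm_mul_le _ _
          _ ≤ 1 * (5 / 4 * (4 / 3)) := by
            have h2 := hE 0 h01
            have h3 := hq 0 h01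
            gcongr
          _ = 5 / 3 := by norm_num
      have hB : ‖∫ x in (0 : ℝ)..1, ((1 - (x : ℂ)) * (D b x)⁻¹ ^ 3) • (E x * q x ^ 3)‖ ≤
          ∫ x in (0 : ℝ)..1, (80 / 27) * (1 - x) ^ (-(1 / 2) : ℝ) := by
        refine intervalIntegral.norm_integral_le_of_norm_le (by norm_num) ?_ (hi.const_mul _)
        have hne : ∀ᵐ x : ℝ, x ≠ 1 := by
          rw [ae_iff]
          simp
        filter_upwards [hne] with x hx1 hx
        have hx' : x ∈ Ico (0 : ℝ) 1 := ⟨hx.1.le, lt_of_le_of_ne hx.2 hx1⟩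
        have h0 : 0 < 1 - x := by linarith [hx'.2]
        have h1 := hDx x hx'
        have h2 := hE x hx'
        have h3 := hq x hx'
        have hn : ‖(1 - (x : ℂ))‖ = 1 - x := by
          rw [show (1 - (x : ℂ)) = ((1 - x : ℝ) : ℂ) by push_cast; ring, Complex.norm_real,
            Real.norm_of_nonneg h0.le]
        calc ‖((1 - (x : ℂ)) * (D b x)⁻¹ ^ 3) • (E x * q x ^ 3)‖
            ≤ ‖(1 - (x : ℂ)) * (D b x)⁻¹ ^ 3‖ * ‖E x * q x ^ 3‖ := norm_smul_le _ _
          _ ≤ ((1 - x) * ‖(D b x)⁻¹‖ ^ 3) * (‖E x‖ * ‖q x‖ ^ 3) := by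
              rw [norm_mul, norm_pow, hn]
              gcongr
              exact (norm_mul_le _ _).trans (by gcongr; exact norm_pow_le _ _)
          _ ≤ ((1 - x) * ((1 - x) ^ (-(1 / 2) : ℝ)) ^ 3) * (5 / 4 * (4 / 3) ^ 3) := by gcongr
          _ = (80 / 27) * (1 - x) ^ (-(1 / 2) : ℝ) := by
              have h4 : (1 - x) * ((1 - x) ^ (-(1 / 2) : ℝ)) ^ 3 = (1 - x) ^ (-(1 / 2) : ℝ) := by
                rw [← Real.rpow_natCast, ← Real.rpow_mul h0.le]
                nth_rewrite 1 [← Real.rpow_one (1 - x)]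
                rw [← Real.rpow_add h0]
                norm_num
              rw [h4]
              ring
      rw [intervalIntegral.integral_const_mul, hv] at hB
      unfold upsOf
      calc _ ≤ ‖(D b 0)⁻¹ • (E 0 * q 0)‖ +
            ‖∫ x in (0 : ℝ)..1, ((1 - (x : ℂ)) * (D b x)⁻¹ ^ 3) • (E x * q x ^ 3)‖ :=
            norm_sub_le _ _
        _ ≤ 5 / 3 + 80 / 27 * 2 := add_le_add hA hB
        _ ≤ 8 := by norm_num
    · have hB : ‖∫ x in (0 : ℝ)..1, (D b x)⁻¹ • q x‖ ≤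
          ∫ x in (0 : ℝ)..1, (4 / 3) * (1 - x) ^ (-(1 / 2) : ℝ) := by
        refine intervalIntegral.norm_integral_le_of_norm_le (by norm_num) ?_ (hi.const_mul _)
        have hne : ∀ᵐ x : ℝ, x ≠ 1 := by
          rw [ae_iff]
          simp
        filter_upwards [hne] with x hx1 hx
        have hx' : x ∈ Ico (0 : ℝ) 1 := ⟨hx.1.le, lt_of_le_of_ne hx.2 hx1⟩
        have h1 := hDx x hx'
        have h3 := hq x hx'
        calc ‖(D b x)⁻¹ • q x‖ ≤ ‖(D b x)⁻¹‖ * ‖q x‖ := norm_smul_le _ _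
          _ ≤ (1 - x) ^ (-(1 / 2) : ℝ) * (4 / 3) :=
              mul_le_mul h1 h3 (norm_nonneg _) (Real.rpow_nonneg (by linarith [hx'.2]) _)
          _ = _ := by ring
      rw [intervalIntegral.integral_const_mul, hv] at hB
      unfold tauOf
      exact hB.trans (by norm_num)
  intro A _ _ _ _ H b _ hb
  constructor
  · unfold Ups
    split_ifs with h
    · exact (key A H b _ _ _ hb (Classical.choose_spec h)).1
    · simp
  · unfold Tau
    split_ifs with h
    · exact (key A H b _ _ _ hb (Classical.choose_spec h)).2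
    · simp

end Pool.Agent.W578.UN.Bd
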